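import Pool.Agent.Helper97.TW.Defs
import Pool.Agent.Helper45.TW.SDefs

/-!
# Project TW3 (MP_e66f84_ag): quadratic twists with any number of rational branch points

`R`: the set of the branch places which are fixed by all actions.  For 100% of `c`, for every action
`Φ` of the twist by `c` there is `b₀ ∈ R` such that all `Φ σ` fix a place above `b₀` of a given level
of exponent two over `L0`.
-/

set_option autoImplicit false

namespace Pool.Agent.TW3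

open VC Filter Topology NumberField IsDedekindDomain IntermediateField Pool.Agent.SC Pool.Agent.L
open Pool.Agent.M (OverPl Moves BPl IsZ NN sgn inL0)
open Pool.Agent.HG (Pr nm IsOdd)
open Pool.Agent.TW (OptAt Lvl Rare)
open Pool.Agent.TOW (NX Infp Au)

noncomputable section

/-- The condition at two places `a`, `b` of `R`: a set `T` of triples `(b₁, b₂, d)`, stable under
conjugation, such that `Φ σ` has different signs at `a` and at `b` if it fixes `b₁` and `b₂` and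
`σ d = - d`. -/
structure PairC {k K0 E U : Type} [Field k] [NumberField k] [Field K0] [Field E] [Field U]
    [Algebra k K0] [Algebra k E] [Algebra E U] [Algebra K0 U] [Algebra k U] (h : K0) (r : U)
    (a b : Place E (L0 E K0 (U := U)))
    (T : Place E (L0 E K0 (U := U)) → Place E (L0 E K0 (U := U)) → E → Prop) : Prop where
  br : ∀ b₁ b₂ d, T b₁ b₂ d → d ≠ 0 ∧ BPl h b₁ ∧ BPl h b₂ ∧ b₁ ≠ b₂ ∧ b₁ ≠ a ∧ b₁ ≠ b ∧
    b₂ ≠ a ∧ b₂ ≠ b
  conj : ∀ (c : k) (Φ : (E ≃ₐ[k] E) →* (U ≃+* U)), c ≠ 0 → Act (K0 := K0) r c Φ →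
    ∀ (g : E ≃ₐ[k] E) b₁ b₂ b₁' b₂' d, T b₁ b₂ d → Moves (Φ g) _ b₁ b₁' → Moves (Φ g) _ b₂ b₂' →
    T b₁' b₂' (g d)
  ex : ∃ b₁ b₂ d, T b₁ b₂ d ∧ ∃ σ₀ : E ≃ₐ[k] E, σ₀ d = -d ∧
    ∀ (c : k) (Φ : (E ≃ₐ[k] E) →* (U ≃+* U)), c ≠ 0 → Act (K0 := K0) r c Φ →
      Moves (Φ σ₀) _ b₁ b₁ ∧ Moves (Φ σ₀) _ b₂ b₂
  sg : ∀ (c : k) (Φ : (E ≃ₐ[k] E) →* (U ≃+* U)), c ≠ 0 → Act (K0 := K0) r c Φ →
    ∀ (σ : E ≃ₐ[k] E) b₁ b₂ d, T b₁ b₂ d → Moves (Φ σ) _ b₁ b₁ → Moves (Φ σ) _ b₂ b₂ →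
    σ d = -d → ∀ z : U, IsZ b₁ b₂ z → ∀ P P' : Place E (NN E K0 2 (U := U)), OverPl a P →
    OverPl b P' → Moves (Φ σ) _ P P → Moves (Φ σ) _ P' P' → sgn (Φ σ) P z ≠ sgn (Φ σ) P' z

/-- `R` is the set of the branch places which are fixed by all actions, there are at least `5` branch
places, and for every two places of `R`: every `Φ σ` has an orbit of odd length outside of them, and
`PairC`. -/
structure ManyRat {k K0 E U : Type} [Field k] [NumberField k] [Field K0] [Field E] [Field U]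
    [Algebra k K0] [Algebra k E] [Algebra E U] [Algebra K0 U] [Algebra k U] (h : K0) (r : U)
    (R : Finset (Place E (L0 E K0 (U := U)))) : Prop where
  ne : R.Nonempty
  br : ∀ b ∈ R, BPl h b
  fix : ∀ b ∈ R, ∀ (c : k) (Φ : (E ≃ₐ[k] E) →* (U ≃+* U)), c ≠ 0 → Act (K0 := K0) r c Φ →
    ∀ σ : E ≃ₐ[k] E, Moves (Φ σ) _ b b
  only : ∀ (c : k) (Φ : (E ≃ₐ[k] E) →* (U ≃+* U)), c ≠ 0 → Act (K0 := K0) r c Φ →
    ∀ b : Place E (L0 E K0 (U := U)), BPl h b → b ∉ R → ∃ σ : E ≃ₐ[k] E, ¬ Moves (Φ σ) _ b b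
  five : 5 ≤ Nat.card {b : Place E (L0 E K0 (U := U)) // BPl h b}
  orb : ∀ a ∈ R, ∀ b ∈ R, a ≠ b → ∀ (c : k) (Φ : (E ≃ₐ[k] E) →* (U ≃+* U)), c ≠ 0 →
    Act (K0 := K0) r c Φ → ∀ σ : E ≃ₐ[k] E, ∃ b₃ : Place E (L0 E K0 (U := U)), BPl h b₃ ∧
      b₃ ≠ a ∧ b₃ ≠ b ∧ ∃ n : ℕ, Odd n ∧ Moves (Φ (σ ^ n)) _ b₃ b₃
  pair : ∀ a ∈ R, ∀ b ∈ R, a ≠ b → ∃ T, PairC (k := k) h r a b T

/-- BLOCK W4 (the analytic theorem), with a set `R`. -/
def StmtANR : Prop :=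
  ∀ (k K0 E U : Type) [Field k] [NumberField k] [Field K0] [Field E] [Field U] [Algebra k K0]
    [Algebra k E] [Algebra E U] [Algebra K0 U] [Algebra k U] [IsScalarTower k E U]
    [IsScalarTower k K0 U] (h : K0) (r : U), Geo k K0 E U h r →
    ∀ R : Finset (Place E (L0 E K0 (U := U))), ManyRat (k := k) h r R → ∀ Z : Finset U,
    ∃ (N : IntermediateField E U) (Bad : Set (Pr k)), Lvl E K0 N ∧ MM E K0 r ≤ N ∧
      (∀ z ∈ Z, z ∈ N) ∧ Bad.Finite ∧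
      ∀ ε : ℝ, 0 < ε → ∃ B : ℕ, ∀ᶠ X : ℕ in atTop, ∀ T : Finset k,
        (∀ c ∈ T, ∀ c' ∈ T, (∃ d : k, c = c' * d ^ 2) → c = c') →
        (∀ c ∈ T, c ≠ 0 ∧ Pool.Agent.HG.cond c ≤ X ∧
          ∃ Φ : (E ≃ₐ[k] E) →* (U ≃+* U), Act (K0 := K0) r c Φ ∧
            ∀ b₀ ∈ R, ∃ v : Pr k, v ∉ Bad ∧ B < nm v ∧ IsOdd v c ∧ ¬ OptAt c Φ N b₀ v) →
        (T.card : ℝ) ≤ ε * X

/-- BLOCK W5 (from `StmtANR`, like `StmtLVL`; only `fix` is used). -/
def StmtLVLR : Prop :=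
  ∀ (k K0 E U : Type) [Field k] [NumberField k] [Field K0] [Field E] [Field U] [Algebra k K0]
    [Algebra k E] [Algebra E U] [Algebra K0 U] [Algebra k U] [IsScalarTower k E U]
    [IsScalarTower k K0 U] (h : K0) (r : U), Geo k K0 E U h r →
    ∀ R : Finset (Place E (L0 E K0 (U := U))), ManyRat (k := k) h r R →
    ∀ N' : IntermediateField E U, Lvl E K0 N' → MM E K0 r ≤ N' →
    (∀ a : U ≃ₐ[E] U, (∀ x ∈ L0 E K0 (U := U), a x = x) → ∀ x ∈ N', a (a x) = x) →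
    Rare (fun c : k => ∃ Φ : (E ≃ₐ[k] E) →* (U ≃+* U), Act (K0 := K0) r c Φ ∧
      ∀ b₀ ∈ R, ∃ σ : E ≃ₐ[k] E, ¬ ∃ Q : Place E N', OverPl b₀ Q ∧ Moves (Φ σ) N' Q Q)

/-- The conditions on `f`. -/
structure ND (k E : Type) [Field k] [Field E] [Algebra k E] (f : Polynomial k) : Prop where
  odd : ∀ b : k, Polynomial.eval b f = 0 → ∃ p : E, Polynomial.aeval p f = 0 ∧
    p ≠ algebraMap k E b ∧ Odd (minpoly k p).natDegree
  one : ∀ b : k, Polynomial.eval b f = 0 → ∃ p q : E, Polynomial.aeval p f = 0 ∧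
    Polynomial.aeval q f = 0 ∧ p ≠ algebraMap k E b ∧ q ≠ algebraMap k E b ∧ p ≠ q ∧
    ∀ d ∈ IntermediateField.adjoin k {p, q},
      d ^ 2 ≠ (algebraMap k E b - p) * (algebraMap k E b - q)
  two : ∀ a b : k, Polynomial.eval a f = 0 → Polynomial.eval b f = 0 → a ≠ b →
    ∃ p : E, Polynomial.aeval p f = 0 ∧ p ≠ algebraMap k E a ∧ p ≠ algebraMap k E b ∧
    ∀ d ∈ IntermediateField.adjoin k {p}, d ^ 2 ≠ (algebraMap k E a - p) * (algebraMap k E b - p)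

/-- BLOCK W6 (the line): `ManyRat` for `y² = f(x)`. -/
def StmtMR : Prop :=
  ∀ (k K0 E U : Type) [Field k] [NumberField k] [Field K0] [Field E] [Field U] [Algebra k K0]
    [Algebra k E] [Algebra E U] [Algebra K0 U] [Algebra k U] [IsScalarTower k E U]
    [IsScalarTower k K0 U] (x : K0) (f : Polynomial k) (r : U), Pool.Agent.TOWS.Hyp E x f r →
    ND k E f → ∃ R : Finset (Place E (L0 E K0 (U := U))),
      ManyRat (k := k) (Polynomial.aeval x f) r R ∧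
      ∀ b ∈ R, inL0 x ∈ b.ring → ∃ α : k, Polynomial.eval α f = 0 ∧
        b.ring.valuation (inL0 x - algebraMap E _ (algebraMap k E α)) < 1

/-- BLOCK W7a (change of the coordinate): a root `α ∈ k` becomes infinity. -/
def StmtCHG : Prop :=
  ∀ (k K0 E U : Type) [Field k] [NumberField k] [Field K0] [Field E] [Field U] [Algebra k K0]
    [Algebra k E] [Algebra E U] [Algebra K0 U] [Algebra k U] [IsScalarTower k E U]
    [IsScalarTower k K0 U] (x : K0) (f : Polynomial k) (r : U), Pool.Agent.TOWS.Hyp E x f r →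
    ∀ α : k, Polynomial.eval α f = 0 → ∃ (f' : Polynomial k) (s : K0), s ≠ 0 ∧
      Pool.Agent.TOWS.Hyp E (x - algebraMap k K0 α)⁻¹ f' (r * algebraMap K0 U s) ∧
      Polynomial.aeval (x - algebraMap k K0 α)⁻¹ f' = Polynomial.aeval x f * s ^ 2

/-- BLOCK W7b (second half of `Pool.Agent.TOWS.one`): a common fixed place at the level `2`. -/
def StmtCOM : Prop :=
  ∀ (k K0 E U : Type) [Field k] [NumberField k] [Field K0] [Field E] [Field U] [Algebra k K0]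
    [Algebra k E] [Algebra E U] [Algebra K0 U] [Algebra k U] [IsScalarTower k E U]
    [IsScalarTower k K0 U] (x : K0) (f : Polynomial k) (r : U), Pool.Agent.TOWS.Hyp E x f r →
    (∀ a : U ≃ₐ[E] U, (∀ z ∈ L0 E K0 (U := U), a z = z) →
      ∀ z ∈ NX E K0 r (2 ^ 1), a (a z) = z) ∧
    ∀ (c : k) (Φ : (E ≃ₐ[k] E) →* (U ≃+* U)), c ≠ 0 → Act (K0 := K0) r c Φ →
    (∀ σ : E ≃ₐ[k] E, ∃ Q : Place E (NX E K0 r (2 ^ 1)), Infp x Q ∧ Moves (Φ σ) _ Q Q) →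
    ∃ Q : Place E (NX E K0 r (2 ^ 1)), Infp x Q ∧ ∀ g : E ≃ₐ[k] E, Moves (Φ g) _ Q Q

/-- THE THEOREM at the level `2`: for 100% of `c` every action fixes a place of level `2` above
infinity, or above a root `α ∈ k` of `f`. -/
def StmtTwo : Prop :=
  ∀ (k K0 E U : Type) [Field k] [NumberField k] [Field K0] [Field E] [Field U] [Algebra k K0]
    [Algebra k E] [Algebra E U] [Algebra K0 U] [Algebra k U] [IsScalarTower k E U]
    [IsScalarTower k K0 U] (x : K0) (f : Polynomial k) (r : U), Pool.Agent.TOWS.Hyp E x f r →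
    ND k E f →
    Rare (fun c : k => ∃ Φ : (E ≃ₐ[k] E) →* (U ≃+* U), Act (K0 := K0) r c Φ ∧
      (¬ ∃ Q : Place E (NX E K0 r (2 ^ 1)), Infp x Q ∧ ∀ g : E ≃ₐ[k] E, Moves (Φ g) _ Q Q) ∧
      ∀ α : k, Polynomial.eval α f = 0 →
        ¬ ∃ Q : Place E (NX E K0 r (2 ^ 1)), Infp (x - algebraMap k K0 α)⁻¹ Q ∧
          ∀ g : E ≃ₐ[k] E, Moves (Φ g) _ Q Q)

end

end Pool.Agent.TW3
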