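import Pool.Agent.Helper37.TW3.Defs2

/-!
# Project TW3: fewer options
-/

set_option autoImplicit false

namespace Pool.Agent.TW3

open Pool.Agent.HG (Special BTR BadT)
open Pool.Agent.Helper99.HG (CD pf Nm BT TA Sys)
open Pool.Agent.TW (WJt TBt)

variable {k : ℕ} {G : Type} {D : CD k G} {V' : D.P → Finset D.O}

theorem resV_card (hV' : ∀ p, V' p ⊆ D.V p) (h : ∃ K : ℕ, ∀ p, (D.V p).card ≤ K) :
    ∃ K : ℕ, ∀ p, ((resV D V').V p).card ≤ K := by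
  obtain ⟨K, hK⟩ := h
  exact ⟨K, fun p => (Finset.card_le_card (hV' p)).trans (hK p)⟩

theorem resV_bt (hV' : ∀ p, V' p ⊆ D.V p) (h : BT D) : BT (resV D V') := by
  intro ε hε
  obtain ⟨C, A, hC, h1⟩ := h ε hε
  refine ⟨C, A, hC, fun j m hm τ hτ t h hh2 hmA S hS => ?_⟩
  refine h1 j m hm τ (fun p hp => hV' p (hτ p hp)) t h hh2 hmA S fun Q hQ => ?_
  obtain ⟨q1, q2, q3, o, ho, q4, q5⟩ := hS Q hQ
  exact ⟨q1, q2, q3, o, hV' Q ho, q4, q5⟩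

theorem resV_btr [CommGroup G] (hV' : ∀ p, V' p ⊆ D.V p) {j₀ : Fin k} (h : BTR D j₀) :
    BTR (resV D V') j₀ := by
  obtain ⟨C, A, hC, h1⟩ := h
  refine ⟨C, A, hC, fun m hm τ hτ t Y h hY hl hmA o E hE => ?_⟩
  refine h1 m hm τ (fun p hp => hV' p (hτ p hp)) t Y h hY hl hmA o E fun e he => ?_
  obtain ⟨q1, q2, q3⟩ := hE e he
  refine ⟨q1, fun q hq => ?_, q3⟩
  obtain ⟨r1, r2, r3, r4, r5⟩ := q2 q hq
  exact ⟨r1, r2, r3, hV' q r4, r5⟩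

theorem resV_special (hV' : ∀ p, V' p ⊆ D.V p) {j₀ : Fin k} (h : Special D j₀) :
    Special (resV D V') j₀ :=
  ⟨fun q o ho o' ho' => h.chi q o (hV' q ho) o' (hV' q ho'), fun q o ho => h.emp q o (hV' q ho)⟩

open scoped Classical in
theorem resV_ta (hV' : ∀ p, V' p ⊆ D.V p) {J : Finset (Fin k)} (h : TA D J) :
    TA (resV D V') J := by
  obtain ⟨δ, C, hδ, h1⟩ := h
  refine ⟨δ, C, hδ, fun y x hy hyx (S : Finset D.P) hS => ?_⟩
  have hS' : ∀ p : D.P, p ∈ S ↔ p ∉ D.Ex ∧ y < D.nm p ∧ D.nm p ≤ x ∧ ∀ o ∈ V' p, D.cmp o ∉ J := hS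
  refine (h1 y x hy hyx (S.filter fun p => ∀ o ∈ D.V p, D.cmp o ∉ J) fun p => ?_).trans ?_
  · rw [Finset.mem_filter, hS']
    constructor
    · rintro ⟨⟨a1, a2, a3, _⟩, a5⟩
      exact ⟨a1, a2, a3, a5⟩
    · rintro ⟨a1, a2, a3, a5⟩
      exact ⟨⟨a1, a2, a3, fun o ho => a5 o (hV' p ho)⟩, a5⟩
  · exact Finset.sum_le_sum_of_subset_of_nonneg (Finset.filter_subset _ _)
      fun _ _ _ => by positivity

theorem resV_wjt (hV' : ∀ p, V' p ⊆ D.V p) (J : Finset (Fin k)) (t : Fin k → D.ι → G) (p : D.P) :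
    WJt (resV D V') J t p ≤ WJt D J t p := by
  classical
  unfold WJt
  refine Finset.sum_le_sum_of_subset_of_nonneg ?_ fun _ _ _ => by positivity
  intro (o : D.O) ho
  have ho' : o ∈ (V' p).filter (fun o => D.cmp o ∈ J ∧ ∀ j, j ∉ J → ∀ i ∈ D.I p o j, t j i = D.g p o i) := ho
  have ho2 := Finset.mem_filter.1 ho'
  exact (Finset.mem_filter (p := fun o : D.O => D.cmp o ∈ J ∧ ∀ j, j ∉ J → ∀ i ∈ D.I p o j,
    t j i = D.g p o i)).2 ⟨hV' p ho2.1, ho2.2⟩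

theorem resV_tbt (hV' : ∀ p, V' p ⊆ D.V p) {J : Finset (Fin k)} (h : TBt D J) :
    TBt (resV D V') J := by
  obtain ⟨hJ, δ, C, hδ, h1⟩ := h
  refine ⟨hJ, δ, C, hδ, fun y x hy hyx t S hS => ?_⟩
  refine (Finset.sum_le_sum fun p hp => ?_).trans (h1 y x hy hyx t S hS)
  exact div_le_div_of_nonneg_right (resV_wjt hV' J (t p) p) (Nat.cast_nonneg _)

end Pool.Agent.TW3
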