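import Pool.Agent.Helper37.TW3.Defs

/-!
# Project TW3, the counting problem: block statements W1, W2, W3
-/

set_option autoImplicit false

namespace Pool.Agent.TW3

open VC Filter Topology NumberField IsDedekindDomain IntermediateField Pool.Agent.SC Pool.Agent.L
open Pool.Agent.HG (Pr nm IsOdd Ctx Gd DatM Special BTR BadT StmtSel StmtMert StmtSplit ggM)
open Pool.Agent.Helper99.HG (CD pf Nm BT TA Sys)
open Pool.Agent.TW (WJt TBt)

noncomputable section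

section res

variable {k : ℕ} {G : Type}

/-- the counting problem with other options -/
def resV (D : CD k G) (V' : D.P → Finset D.O) : CD k G := { D with V := V' }

end res

/-- BLOCK W1: `StmtCountNt` with a set `R₀` of special components. -/
def StmtCountNR : Prop :=
  ∀ (k : ℕ) (G : Type) [CommGroup G] (D : CD k G), Sys D.P D.nm →
    (∃ K : ℕ, ∀ p, (D.V p).card ≤ K) → BT D → ∀ R₀ : Finset (Fin k), R₀.Nonempty →
    (∀ j ∈ R₀, Special D j) →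
    (∀ J : Finset (Fin k), (∃ j ∈ R₀, J = {j}) ∨ TA D J ∨ TBt D J) → ∀ ε : ℝ, 0 < ε → ε < 1 →
    ∃ η C : ℝ, 0 < η ∧ 0 < C ∧ ∀ X : ℕ, 3 ≤ X → ∀ S : Finset (Finset D.P),
      (∀ c ∈ S, Nm D c ≤ X ∧ ∃ τ : D.P → D.O, BadT D c τ ∧ ∀ j ∈ R₀,
        ∃ p ∈ pf D c, D.cmp (τ p) ≠ j ∧ Real.exp (Real.log X ^ ε) ≤ D.nm p) →
      (S.card : ℝ) ≤ C * X / Real.log X ^ η

/-- the first factor of the prescription `ggM`: the product over all primes, for the component of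
`ρ` -/
def gfac {k L : Type} [Field k] [NumberField k] [Field L] [NumberField L] [Algebra k L]
    [IsGalois k L] {f : Polynomial k} (X : Ctx k L f) {ι : Type}
    (SG : Pr k → ι → ℕ → L → L → ℤˣ) (h : L → L → L) (v : Pr k) (o : Σ _ : L × ℤˣ, ι) (ρ : L) :
    ℤˣ := open scoped Classical in
  if ρ = X.st v o.1.1 then o.1.2 else
    X.chE v (Nat.lcm (X.len v ρ) (X.len v (X.st v o.1.1))) (h ρ (X.st v o.1.1)) *
      SG v o.2 (Nat.lcm (X.len v ρ) (X.len v (X.st v o.1.1))) ρ (X.st v o.1.1) *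
      o.1.2 ^ (Nat.lcm (X.len v ρ) (X.len v (X.st v o.1.1)) / X.len v (X.st v o.1.1))

/-- the relation at all pairs of roots fixed by the Frobenius element -/
def RelP {k L : Type} [Field k] [NumberField k] [Field L] [NumberField L] [Algebra k L]
    [IsGalois k L] {f : Polynomial k} (X : Ctx k L f) {ι : Type}
    (SG : Pr k → ι → ℕ → L → L → ℤˣ) (h : L → L → L) (v : Pr k) (o : Σ _ : L × ℤˣ, ι) : Prop :=
  ∀ ρ ∈ X.Ω, ∀ ρ' ∈ X.Ω, X.F v ρ = ρ → X.F v ρ' = ρ' → ρ ≠ ρ' → ρ ≠ o.1.1 → ρ' ≠ o.1.1 →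
    gfac X SG h v o ρ * gfac X SG h v o ρ' = X.chE v 1 (h ρ ρ') * SG v o.2 1 ρ ρ'

open scoped Classical in
/-- the counting problem `cdM`, with the options which satisfy the relations `RelP` -/
def cdW {k L : Type} [Field k] [NumberField k] [Field L] [NumberField L] [Algebra k L]
    [IsGalois k L] {f : Polynomial k} (X : Ctx k L f) (hm : 0 < X.m)
    (hfin : {v : Pr k | ¬ Gd X.M v}.Finite) (ι : Type) (Vι : Pr k → L → Finset ι)
    (SG : Pr k → ι → ℕ → L → L → ℤˣ) (h : L → L → L) : CD X.m ℤˣ :=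
  resV (X.cdM hm hfin ι Vι (ggM X hm SG h))
    (fun v : Pr k => Finset.filter (fun o : Σ _ : L × ℤˣ, ι => RelP X SG h v o)
      ((X.Fx v ×ˢ (Finset.univ : Finset ℤˣ)).sigma fun o => Vι v o.1))

/-- BLOCK W2: `StmtG1t` for `cdW`. -/
def StmtG1w : Prop :=
  StmtSel → ∀ (k L : Type) [Field k] [NumberField k] [Field L] [NumberField L] [Algebra k L]
    [IsGalois k L] (f : Polynomial k) (X : Ctx k L f), 4 ≤ f.natDegree →
    ∀ (hm : 0 < X.m) (hfin : {v : Pr k | ¬ Gd X.M v}.Finite) (ι : Type)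
      (Vι : Pr k → L → Finset ι) (SG : Pr k → ι → ℕ → L → L → ℤˣ),
    ∃ (H : Type) (_ : Finite H) (hh : H → L → L → L),
      ∀ (c : k) (S : Finset (Pr k)) (D : L → L → L) (t : Pr k → L) (i : Pr k → ι),
      DatM X c S D t (fun v => SG v (i v)) → (∀ v ∈ S, i v ∈ Vι v (t v)) →
      ∃ (h : H) (u : Pr k → ℤˣ),
        BadT (cdW X hm hfin ι Vι SG (hh h)) S (fun v => ⟨(t v, u v), i v⟩)

open scoped Classical in
/-- BLOCK W3: the weights, with any number of rational roots. -/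
def StmtG3w : Prop :=
  StmtMert → StmtSplit → ∀ (k L : Type) [Field k] [NumberField k] [Field L]
    [NumberField L] [Algebra k L] [IsGalois k L] (f : Polynomial k), Even f.natDegree →
    6 ≤ f.natDegree →
    (∀ a b : k, Polynomial.eval a f = 0 → Polynomial.eval b f = 0 → a ≠ b → ∀ σ : L ≃ₐ[k] L,
      ∃ θ ∈ f.rootSet L, θ ≠ algebraMap k L a ∧ θ ≠ algebraMap k L b ∧
        ∃ n : ℕ, Odd n ∧ (σ ^ n) θ = θ) →
    ∀ B : ℕ → Finset (Pr k), (∀ x v, v ∈ B x ↔ nm v ≤ x) → ∀ Q₁ : k → k → Set (Pr k),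
    (∀ a b : k, Polynomial.eval a f = 0 → Polynomial.eval b f = 0 → a ≠ b →
      ∃ δ₁ C₁ : ℝ, 0 < δ₁ ∧ ∀ x : ℕ, 2 ≤ x →
        |∑ v ∈ (B x).filter (· ∈ Q₁ a b), (1 : ℝ) / nm v - δ₁ * Real.log (Real.log x)| ≤ C₁) →
    ∀ K : ℕ, ∃ ε : ℝ, 0 < ε ∧ ∀ (X : Ctx k L f) (hm : 0 < X.m)
      (hfin : {v : Pr k | ¬ Gd X.M v}.Finite) (ι : Type) (Vι : Pr k → L → Finset ι)
      (SG : Pr k → ι → ℕ → L → L → ℤˣ) (hh : L → L → L), (∀ v t, (Vι v t).card ≤ K) →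
      ∀ Q : Set (Pr k), (∀ v ∉ Q, Gd X.M v → ∀ t, (Vι v t).card ≤ 1) →
      ∀ δ C : ℝ, δ ≤ ε →
      (∀ x : ℕ, 2 ≤ x → |∑ v ∈ (B x).filter (· ∈ Q), (1 : ℝ) / nm v -
        δ * Real.log (Real.log x)| ≤ C) →
      (∀ a b : k, Polynomial.eval a f = 0 → Polynomial.eval b f = 0 → a ≠ b →
        ∀ v ∈ Q₁ a b, Gd X.M v → ∃ ρ ∈ X.Ω, ∃ ρ' ∈ X.Ω, X.F v ρ = ρ ∧ X.F v ρ' = ρ' ∧ ρ ≠ ρ' ∧
          ρ ≠ algebraMap k L a ∧ ρ ≠ algebraMap k L b ∧ ρ' ≠ algebraMap k L a ∧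
          ρ' ≠ algebraMap k L b ∧ ∀ i ∈ Vι v (algebraMap k L a), ∀ i' ∈ Vι v (algebraMap k L b),
            SG v i 1 ρ ρ' ≠ SG v i' 1 ρ ρ') →
      Sys (Pr k) nm ∧
      (∃ K' : ℕ, ∀ p, ((cdW X hm hfin ι Vι SG hh).V p).card ≤ K') ∧
      (∀ a : k, Polynomial.eval a f = 0 →
        Special (cdW X hm hfin ι Vι SG hh) (X.cmp hm (algebraMap k L a))) ∧
      (∀ J : Finset (Fin X.m), (∃ a : k, Polynomial.eval a f = 0 ∧
          J = {X.cmp hm (algebraMap k L a)}) ∨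
        TA (cdW X hm hfin ι Vι SG hh) J ∨ TBt (cdW X hm hfin ι Vι SG hh) J) ∧
      ∀ a : k, Polynomial.eval a f = 0 → ∀ J : Finset (Fin X.m),
        X.cmp hm (algebraMap k L a) ∈ J → J ≠ {X.cmp hm (algebraMap k L a)} →
        TBt (cdW X hm hfin ι Vι SG hh) J

end

end Pool.Agent.TW3
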