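import Pool.Agent.Helper37.TW3.AllA
import Pool.Agent.Helper37.TW3.CNR
import Pool.Agent.Helper10.TW3.ANR
import Pool.Agent.Helper29.TW3.LVLR
import Pool.Agent.Helper90.TW3.G1w
import Pool.Agent.Helper5.TW3.G3w

/-!
# Project TW3: everything

**The final theorem.**  Let `k` be a number field and `f ∈ k[x]` separable of odd degree at least `5`
with property `ND`.  For 100 percent of `c ∈ k*/k*²` every Galois section of `y² = c f(x)`, and of
every curve above it, agrees modulo `2` with the section of the point at infinity or of a point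
`(α, 0)`, `α ∈ k`.
-/

set_option autoImplicit false

namespace Pool.Agent.TW3

open Pool.Agent.M Pool.Agent.L Pool.Agent.TW

theorem stmtANR : StmtANR := by
  have hFT : StmtFT := fT
  have hLM : StmtLM := lm (Pool.Agent.L.stmtK2 Pool.Agent.L.stmtK1) Pool.Agent.L.stmtK3 k4M
    Pool.Agent.L.stmtAR
  have hFIN : StmtFIN := Pool.Agent.M.fin hLM hFT hf Pool.Agent.L.stmtFR Pool.Agent.L.stmtAR
  have hINT2 : StmtINT2 := int2 hLM hFT coc nR Pool.Agent.L.stmtAR
  have hQMD : StmtQMD := qMD (pI hFT) Pool.Agent.Helper22.M.w4 (qW hFT (w1 hFT)) w2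
  exact aNR countNR Pool.Agent.Helper99.TW.countLt g1w g3w btrM hINT2 eV nR fb hFIN z lft (mu hFT)
    hQMD w3 Pool.Agent.HG.sel Pool.Agent.Helper21.HG.mert Pool.Agent.Helper21.HG.split
    (Pool.Agent.HG.btl Pool.Agent.Helper21.HG.mert)
    (Pool.Agent.HG.btlr Pool.Agent.Helper21.HG.mert) Pool.Agent.Helper88.HG.thue
    Pool.Agent.Helper88.HG.g4 Pool.Agent.HG.g2 Pool.Agent.HG.g2M

theorem stmtLVLR : StmtLVLR := by
  have hLM : StmtLM := lm (Pool.Agent.L.stmtK2 Pool.Agent.L.stmtK1) Pool.Agent.L.stmtK3 k4M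
    Pool.Agent.L.stmtAR
  exact lvlr stmtANR hLM Pool.Agent.L.stmtK3 Pool.Agent.L.stmtAR
    (lva (lvf hf) w3 Pool.Agent.L.ct) trv Pool.Agent.L.stmtFR

/-- **Project TW3, the final theorem.** -/
theorem fin3 (k : Type) [Field k] [NumberField k] (f : Polynomial k)
    (hsep : f.Separable) (hodd : Odd f.natDegree) (hdeg : 5 ≤ f.natDegree)
    (hND : ND k (AlgebraicClosure k) f) : Rare (fun c : k => Oth3 f c) :=
  fin3_of stmtLVLR k f hsep hodd hdeg hND

end Pool.Agent.TW3
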