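import Pool.Agent.Helper37.TW3.PtsA

/-!
# Project TW3: the form of the final theorem, and the sections of the points `(α, 0)`
-/

set_option autoImplicit false

namespace Pool.Agent.TW3

open VC Polynomial Pool.Agent.Helper91.Sect
open Pool.Agent.TW (Lev AgrInf IsRt Xbar)

section agr

variable {k K : Type} [Field k] [Field K] [Algebra k K]

/-- The section `s` fixes a place of level `m` at which `u` has a pole. -/
def Agr3 (s : GaloisSection k K) (x y u : K) (m : ℕ) : Prop :=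
  ∃ Q : ValuationSubring (AlgebraicClosure K), (∀ z, IsAlgebraic k z → z ∈ Q) ∧
    algebraMap K (AlgebraicClosure K) u ∉ Q ∧
    ∀ w ∈ Lev k x y m, ∃ hw : w ∈ Kur k K, ∀ g : Gk k K,
      (w ∈ Q ↔ (s.toHom g ⟨w, hw⟩ : AlgebraicClosure K) ∈ Q)

theorem xbar_inv (x y : K) (α : k) : Xbar k (x - algebraMap k K α)⁻¹ y = Xbar k x y := by
  have hα : ∀ S : Subfield (AlgebraicClosure K), (∀ z, IsAlgebraic k z → z ∈ S) →
      algebraMap K (AlgebraicClosure K) (algebraMap k K α) ∈ S := by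
    intro S hS
    rw [← IsScalarTower.algebraMap_apply]
    exact hS _ (isAlgebraic_algebraMap α)
  refine le_antisymm ?_ ?_
  · have hc : ∀ z : AlgebraicClosure K, IsAlgebraic k z → z ∈ Xbar k x y := fun z hz =>
      Subfield.subset_closure (Or.inl hz)
    refine xbar_le hc ?_ (Subfield.subset_closure (Or.inr (Or.inr rfl)))
    rw [map_inv₀, map_sub]
    exact inv_mem (sub_mem (Subfield.subset_closure (Or.inr (Or.inl rfl))) (hα _ hc))
  · have hc : ∀ z : AlgebraicClosure K, IsAlgebraic k z →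
        z ∈ Xbar k (x - algebraMap k K α)⁻¹ y := fun z hz => Subfield.subset_closure (Or.inl hz)
    refine xbar_le hc ?_ (Subfield.subset_closure (Or.inr (Or.inr rfl)))
    have h1 : algebraMap K (AlgebraicClosure K) (x - algebraMap k K α)⁻¹ ∈
        Xbar k (x - algebraMap k K α)⁻¹ y := Subfield.subset_closure (Or.inr (Or.inl rfl))
    have h2 := add_mem (inv_mem h1) (hα _ hc)
    rwa [← map_inv₀, inv_inv, ← map_add, sub_add_cancel] at h2

theorem agr3_inv {s : GaloisSection k K} {x y : K} {α : k} {m : ℕ} :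
    Agr3 s x y (x - algebraMap k K α)⁻¹ m ↔ AgrInf s (x - algebraMap k K α)⁻¹ y m := by
  unfold Agr3 AgrInf
  rw [lev_congr (xbar_inv x y α) m]

/-- `agr_mul`, backwards -/
theorem agr_div {s : GaloisSection k K} {x y : K} (hx : x ≠ 0) (n : ℕ) {m : ℕ}
    (h : AgrInf s x y m) : AgrInf s x (y * x⁻¹ ^ n) m := by
  obtain ⟨Q, h1, h2, h3⟩ := h
  refine ⟨Q, h1, h2, fun w hw => ?_⟩
  rw [lev_congr (xbar_mul hx n), mul_assoc, ← mul_pow, inv_mul_cancel₀ hx, one_pow, mul_one] at hw
  exact h3 w hw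

end agr

/-- The curve `y² = c f(x)` has a section which agrees with the point `(α, 0)`, `f(α) = 0`, modulo
all numbers. -/
theorem exists_agr3 (hGC : Pool.Agent.TW.StmtGC) {k : Type} [Field k] [NumberField k] {f : k[X]}
    (hsep : f.Separable) (hodd : Odd f.natDegree) (hdeg : 5 ≤ f.natDegree) {c : k}
    (hc : c ≠ 0) {α : k} (hα : eval α f = 0) :
    ∃ (K : Type) (_ : Field K) (_ : Algebra k K) (x y : K), Transcendental k x ∧
      y ^ 2 = algebraMap k K c * aeval x f ∧ IntermediateField.adjoin k {x, y} = ⊤ ∧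
      ∃ s : GaloisSection k K, ∀ m : ℕ, 0 < m → Agr3 s x y (x - algebraMap k K α)⁻¹ m := by
  obtain ⟨hs1, hd1⟩ := Pool.Agent.TOWS.cc_sep (E := AlgebraicClosure k) hsep hα
  obtain ⟨K, i1, i2, x, y, hx, hy, htop, s, hs⟩ := Pool.Agent.TOWS.exists_agrS hGC hs1
    (by rw [hd1]; exact hodd) (by rw [hd1]; exact hdeg) hc
  have hx0 : x ≠ 0 := by
    rintro rfl
    exact hx isAlgebraic_zero
  obtain ⟨N, hN⟩ : ∃ N, N = (f.natDegree + 1) / 2 := ⟨_, rfl⟩
  have hN2 : N * 2 = f.natDegree + 1 := by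
    obtain ⟨m, hm⟩ := hodd
    omega
  have hsub : (x⁻¹ + algebraMap k K α) - algebraMap k K α = x⁻¹ := add_sub_cancel_right _ _
  refine ⟨K, i1, i2, x⁻¹ + algebraMap k K α, y * x⁻¹ ^ N, ?_, ?_, ?_, s, fun m hm => ?_⟩
  · intro h
    apply hx
    have h2 := h.sub (isAlgebraic_algebraMap α)
    rw [add_sub_cancel_right] at h2
    have h3 := h2.inv
    rwa [inv_inv] at h3
  · have h1 := Pool.Agent.TOWS.aeval_cc (f := f) (a := α) (y := x⁻¹ + algebraMap k K α) (by
      rw [hsub]; exact inv_ne_zero hx0)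
    rw [hsub, inv_inv] at h1
    rw [mul_pow, hy, h1, ← pow_mul, hN2, inv_pow]
    field_simp
  · rw [eq_top_iff, ← htop, IntermediateField.adjoin_le_iff]
    have hx1 : x⁻¹ + algebraMap k K α ∈ IntermediateField.adjoin k
        {x⁻¹ + algebraMap k K α, y * x⁻¹ ^ N} :=
      IntermediateField.subset_adjoin _ _ (Set.mem_insert _ _)
    have hy1 : y * x⁻¹ ^ N ∈ IntermediateField.adjoin k
        {x⁻¹ + algebraMap k K α, y * x⁻¹ ^ N} :=
      IntermediateField.subset_adjoin _ _ (Set.mem_insert_of_mem _ rfl)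
    have hx2 : x⁻¹ ∈ IntermediateField.adjoin k {x⁻¹ + algebraMap k K α, y * x⁻¹ ^ N} := by
      have h1 := sub_mem hx1 ((IntermediateField.adjoin k
        {x⁻¹ + algebraMap k K α, y * x⁻¹ ^ N}).algebraMap_mem α)
      rwa [add_sub_cancel_right] at h1
    have hx3 : x ∈ IntermediateField.adjoin k {x⁻¹ + algebraMap k K α, y * x⁻¹ ^ N} := by
      have h1 := inv_mem hx2
      rwa [inv_inv] at h1
    rintro z (rfl | hz)
    · exact hx3
    · rw [Set.mem_singleton_iff.1 hz]
      have h1 := mul_mem hy1 (pow_mem hx3 N)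
      rwa [mul_assoc, ← mul_pow, inv_mul_cancel₀ hx0, one_pow, mul_one] at h1
  · rw [agr3_inv, hsub, inv_inv]
    exact agr_div hx0 N (hs m hm)

end Pool.Agent.TW3
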