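import Pool.Agent.Helper37.TW3.Defs
import Pool.Agent.Helper45.TW.CC

/-!
# Project TW3: the theorem at the level `2`, from the blocks
-/

set_option autoImplicit false

namespace Pool.Agent.TW3

open VC Filter Topology NumberField IsDedekindDomain IntermediateField Pool.Agent.SC Pool.Agent.L
open Pool.Agent.M (OverPl Moves BPl IsZ NN sgn inL0)
open Pool.Agent.HG (Pr nm IsOdd)
open Pool.Agent.TW (OptAt Lvl Rare)
open Pool.Agent.TOW (NX Infp Au)

theorem rare_mono {k : Type} [Field k] [NumberField k] {P P' : k → Prop} (hP : Rare P)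
    (h : ∀ c : k, c ≠ 0 → P' c → P c) : Rare P' := by
  intro ε hε
  filter_upwards [hP ε hε] with Y hY
  intro T hT hTc
  exact hY T hT fun c hc => ⟨(hTc c hc).1, (hTc c hc).2.1, h c (hTc c hc).1 (hTc c hc).2.2⟩

theorem two (hLVLR : StmtLVLR) (hMR : StmtMR) (hCHG : StmtCHG) (hCOM : StmtCOM)
    (hPX1 : Pool.Agent.TOW.StmtPX1) : StmtTwo := by
  intro k K0 E U _ _ _ _ _ _ _ _ _ _ _ _ x f r H hND
  classical
  obtain ⟨R, hR, hRx⟩ := hMR k K0 E U x f r H hND
  obtain ⟨hexp, hcom⟩ := hCOM k K0 E U x f r H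
  obtain ⟨q1, -, q3, -, -, -, -, -⟩ := hPX1 k K0 E U _ r H.geo 1
  have hx0 : ∀ (s : U) (z : K0), algebraMap K0 U z ∈ NX E K0 s (2 ^ 1) := fun s z =>
    Pool.Agent.TOW.L0_le_NX (IntermediateField.subset_adjoin _ _ ⟨z, rfl⟩)
  refine rare_mono (hLVLR k K0 E U _ r H.geo R hR (NX E K0 r (2 ^ 1))
    ⟨q3, fun z => hx0 r z, fun T hT hE => q1 T ⟨hT, hE⟩⟩ Pool.Agent.TOW.MM_le_NX hexp) ?_
  rintro c hc ⟨Φ, hΦ, hinf, hrt⟩
  refine ⟨Φ, hΦ, fun b₀ hb₀ => ?_⟩
  by_contra hcon
  push Not at hcon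
  by_cases hxb : inL0 x ∈ b₀.ring
  · obtain ⟨α, hα, hval⟩ := hRx b₀ hb₀ hxb
    obtain ⟨f', s, hs, H', -⟩ := hCHG k K0 E U x f r H α hα
    have hM := Pool.Agent.TOWS.MM_scale (E := E) r hs
    have hN := Pool.Agent.TOWS.NX_congr hM (2 ^ 1)
    have hΦ' := Pool.Agent.TOWS.Act.scale hΦ s
    obtain ⟨-, hcom'⟩ := hCOM k K0 E U _ f' _ H'
    have key : ∃ Q : Place E (NX E K0 r (2 ^ 1)), Infp (x - algebraMap k K0 α)⁻¹ Q ∧
        ∀ g : E ≃ₐ[k] E, Moves (Φ g) _ Q Q := by
      have h1 := hcom' c Φ hc hΦ'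
      rw [hN] at h1
      refine h1 fun σ => ?_
      obtain ⟨Q, hQ, hm⟩ := hcon σ
      refine ⟨Q, fun hx hmem => ?_, hm⟩
      have h2 : inL0 (E := E) (U := U) (x - algebraMap k K0 α)⁻¹ ∈ b₀.ring :=
        (hQ _ (IntermediateField.subset_adjoin _ _ ⟨_, rfl⟩) hx).2 hmem
      have h3 : inL0 (E := E) (U := U) (x - algebraMap k K0 α)⁻¹ =
          (inL0 x - algebraMap E _ (algebraMap k E α))⁻¹ := by
        apply Subtype.ext
        show algebraMap K0 U (x - algebraMap k K0 α)⁻¹ =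
          (algebraMap K0 U x - algebraMap E U (algebraMap k E α))⁻¹
        rw [map_inv₀, map_sub, ← IsScalarTower.algebraMap_apply k E U,
          ← IsScalarTower.algebraMap_apply k K0 U]
      rw [h3] at h2
      by_cases h4 : (inL0 x - algebraMap E _ (algebraMap k E α) : L0 E K0 (U := U)) = 0
      · apply H.tr
        have h5 : algebraMap K0 U x = algebraMap E U (algebraMap k E α) :=
          sub_eq_zero.1 (congrArg Subtype.val h4)
        have h6 : algebraMap K0 U x = algebraMap K0 U (algebraMap k K0 α) := by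
          rw [h5, ← IsScalarTower.algebraMap_apply k E U, ← IsScalarTower.algebraMap_apply k K0 U]
        rw [(algebraMap K0 U).injective h6]
        exact isAlgebraic_algebraMap α
      · have h5 := (b₀.ring.valuation_le_one_iff _).2 h2
        rw [map_inv₀] at h5
        have h6 : b₀.ring.valuation (inL0 x - algebraMap E _ (algebraMap k E α)) ≠ 0 :=
          (Valuation.ne_zero_iff _).2 h4
        have h7 := (inv_le_one₀ (zero_lt_iff.2 h6)).1 h5
        exact absurd hval (not_lt.2 h7)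
    exact hrt α hα key
  · refine hinf (hcom c Φ hc hΦ fun σ => ?_)
    obtain ⟨Q, hQ, hm⟩ := hcon σ
    exact ⟨Q, fun hx hmem => hxb ((hQ _ (IntermediateField.subset_adjoin _ _ ⟨_, rfl⟩) hx).2 hmem),
      hm⟩

end Pool.Agent.TW3
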