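import Pool.Agent.Helper17.TW3.SFin3
import Pool.Agent.Helper28.TW3.SG
import Pool.Agent.Helper32.TW3.MR
import Pool.Agent.Helper37.TW3.Two
import Pool.Agent.Helper45.TW.W7
import Pool.Agent.Helper97.TW.All

/-!
# Project TW3: the assembly, from block W5
-/

set_option autoImplicit false

namespace Pool.Agent.TW3

open Polynomial

theorem fin3_of (hL : StmtLVLR) (k : Type) [Field k] [NumberField k] (f : k[X])
    (hsep : f.Separable) (hodd : Odd f.natDegree) (hdeg : 5 ≤ f.natDegree)
    (hND : ND k (AlgebraicClosure k) f) :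
    Pool.Agent.TW.Rare (fun c : k => Oth3 f c) :=
  fin_two Pool.Agent.TW.gC Pool.Agent.TW.stmtPX1
    (two hL (mR sgInf sgFin) cHG (cOM Pool.Agent.TW.stmtPX1 Pool.Agent.TOW.kD)
      Pool.Agent.TW.stmtPX1) k f hsep hodd hdeg hND

end Pool.Agent.TW3
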