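import Pool.Agent.Helper37.TW.Pts
import Pool.Agent.Helper45.TW.CC
import Pool.Agent.Helper17.TW3.SFin3

/-!
# Project TW3, block W9: the rational points
-/

set_option autoImplicit false
set_option linter.unusedSectionVars false

namespace Pool.Agent.TW3

open VC Polynomial NumberField Filter Topology Pool.Agent.Helper91.Sect
open Pool.Agent.TW (Lev AgrInf IsRt Xbar)
open Pool.Agent.TW37
open Pool.Agent.Helper88.HG (pvr tt)

noncomputable section

section K

variable {k K : Type} [Field k] [CharZero k] [Field K] [Algebra k K]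

/-- the value of the square root at a rational point -/
theorem val_pt3 {s : GaloisSection k K} {W : ValuationSubring (AlgebraicClosure K)}
    (hW : ∀ c : k, algebraMap k (AlgebraicClosure K) c ∈ W)
    (hs : ∀ g : Gk k K, ∃ τ : AlgebraicClosure K ≃ₐ[K] AlgebraicClosure K,
      (∀ z, τ z ∈ W ↔ z ∈ W) ∧ ∀ z : Kur k K, (s.toHom g z : AlgebraicClosure K) = τ z)
    {x y : K} {f : k[X]} {c : k}
    (hc : c ≠ 0) (hx : Transcendental k x) (hsep : f.Separable)
    (hodd : Odd f.natDegree) (hxy : y ^ 2 = algebraMap k K c * aeval x f)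
    (hA : AgrInf s x y 2) {x₀ : k}
    (hx₀ : W.valuation (algebraMap K (AlgebraicClosure K) (x - algebraMap k K x₀)) < 1)
    {ρ : kbar k K} (hρ : aeval ρ f = 0) :
    ∃ d : kbar k K, d ^ 2 = algebraMap k (kbar k K) (c * f.leadingCoeff) *
      (algebraMap k (kbar k K) x₀ - ρ) ∧ ∀ g : Gk k K, g ρ = ρ → g d = d := by
  classical
  obtain ⟨e, he⟩ : ∃ e : k, e = c * f.leadingCoeff := ⟨_, rfl⟩
  obtain ⟨w, hw⟩ : ∃ w : AlgebraicClosure K, w ^ 2 =
      algebraMap k (AlgebraicClosure K) (c * f.leadingCoeff) *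
      (algebraMap K (AlgebraicClosure K) x - ρ) := IsAlgClosed.exists_pow_nat_eq _ two_pos
  obtain ⟨hwK, hfix⟩ := fix_w hc hx hsep hodd hxy hA hρ hw
  obtain ⟨d₀, hd₀⟩ : ∃ d₀ : kbar k K, d₀ ^ 2 = algebraMap k (kbar k K) (c * f.leadingCoeff) *
      (algebraMap k (kbar k K) x₀ - ρ) := IsAlgClosed.exists_pow_nat_eq _ two_pos
  have hd₀c : (d₀ : AlgebraicClosure K) ^ 2 =
      algebraMap k (AlgebraicClosure K) (c * f.leadingCoeff) *
        (algebraMap k (AlgebraicClosure K) x₀ - ρ) :=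
    congrArg (fun z : kbar k K => (z : AlgebraicClosure K)) hd₀
  have h1 : W.valuation (w ^ 2 - (d₀ : AlgebraicClosure K) ^ 2) < 1 := by
    have h2 : w ^ 2 - (d₀ : AlgebraicClosure K) ^ 2 =
        algebraMap k (AlgebraicClosure K) (c * f.leadingCoeff) *
        algebraMap K (AlgebraicClosure K) (x - algebraMap k K x₀) := by
      rw [hw, hd₀c, map_sub, ← IsScalarTower.algebraMap_apply]
      ring
    rw [h2, map_mul]
    exact mul_lt_one_of_nonneg_of_lt_one_right ((W.valuation_le_one_iff _).2 (hW _)) zero_le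
      hx₀
  obtain ⟨d, hd, hwd⟩ : ∃ d : kbar k K, d ^ 2 = d₀ ^ 2 ∧
      W.valuation (w - (d : AlgebraicClosure K)) < 1 := by
    by_contra hcon
    push Not at hcon
    have h2 := hcon d₀ rfl
    have h3 := hcon (-d₀) (neg_sq d₀)
    have h4 : w ^ 2 - (d₀ : AlgebraicClosure K) ^ 2 = (w - (d₀ : AlgebraicClosure K)) *
        (w - ((-d₀ : kbar k K) : AlgebraicClosure K)) := by
      have h5 : ((-d₀ : kbar k K) : AlgebraicClosure K) = -(d₀ : AlgebraicClosure K) := rfl
      rw [h5]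
      ring
    rw [h4, map_mul] at h1
    exact absurd h1 (not_lt.2 (one_le_mul h2 h3))
  refine ⟨d, hd.trans hd₀, fun g hg => ?_⟩
  obtain ⟨τ, hτW, hτ⟩ := hs g
  have hτlt : ∀ z, W.valuation z < 1 → W.valuation (τ z) < 1 := by
    intro z hz
    rw [← ValuationSubring.mem_nonunits_iff, ValuationSubring.mem_nonunits_iff_or] at hz ⊢
    rcases hz with hz | hz
    · left
      rw [hz, map_zero]
    · right
      rw [← map_inv₀, hτW]
      exact hz
  have h2 : τ w = w := (hτ ⟨w, hwK⟩).symm.trans (hfix g hg)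
  have h3 : τ (d : AlgebraicClosure K) = ((g d : kbar k K) : AlgebraicClosure K) := by
    rw [← s.isSection g d ⟨d, kbar_mem_Kur d⟩ rfl, hτ]
  have h4 := hτlt _ hwd
  rw [map_sub, h2, h3] at h4
  by_contra hne
  have h5 : ((g d - d : kbar k K) : AlgebraicClosure K) ≠ 0 := by
    intro h
    exact hne (sub_eq_zero.1 (Subtype.ext h))
  have h6 := const_val_eq_one hW (mem_algebraicClosure_iff.1 (g d - d).2) h5
  have h7 : ((g d - d : kbar k K) : AlgebraicClosure K) = (w - (d : AlgebraicClosure K)) -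
      (w - ((g d : kbar k K) : AlgebraicClosure K)) := by
    have h8 : ((g d - d : kbar k K) : AlgebraicClosure K) =
      ((g d : kbar k K) : AlgebraicClosure K) - (d : AlgebraicClosure K) := rfl
    rw [h8]
    ring
  rw [h7] at h6
  have h8 := lt_of_le_of_lt (Valuation.map_sub W.valuation _ _) (max_lt hwd h4)
  rw [h6] at h8
  exact lt_irrefl _ h8


end K

section final

/-- the conclusion for a place of `K` above the rational point -/
theorem pt_gen3 {k K : Type} [Field k] [CharZero k] [Field K] [Algebra k K]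
    {s : GaloisSection k K} {W : ValuationSubring (AlgebraicClosure K)}
    (hW : ∀ c : k, algebraMap k (AlgebraicClosure K) c ∈ W)
    (hs : ∀ g : Gk k K, ∃ τ : AlgebraicClosure K ≃ₐ[K] AlgebraicClosure K,
      (∀ z, τ z ∈ W ↔ z ∈ W) ∧ ∀ z : Kur k K, (s.toHom g z : AlgebraicClosure K) = τ z)
    {x y : K} {f : k[X]} {c : k}
    (hc : c ≠ 0) (hx : Transcendental k x) (hsep : f.Separable)
    (hodd : Odd f.natDegree) (hxy : y ^ 2 = algebraMap k K c * aeval x f)
    (hA : AgrInf s x y 2) {x₀ : k}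
    (hx₀ : W.valuation (algebraMap K (AlgebraicClosure K) (x - algebraMap k K x₀)) < 1) :
    ∃ p : k[X], f ∣ C (c * f.leadingCoeff) * (C x₀ - X) - p ^ 2 := by
  refine crt_sq (q := C (c * f.leadingCoeff) * (C x₀ - X)) hsep (by
    intro g hg hgf
    obtain ⟨ρ, hρ⟩ : ∃ ρ : kbar k K, aeval ρ g = 0 :=
      IsAlgClosed.exists_aeval_eq_zero _ g (degree_pos_of_irreducible hg).ne'
    have hρf : aeval ρ f = 0 := by
      obtain ⟨h, rfl⟩ := hgf
      rw [map_mul, hρ, zero_mul]
    obtain ⟨d, hd, hfix⟩ := val_pt3 hW hs hc hx hsep hodd hxy hA hx₀ hρf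
    have hdm := mem_adj hfix
    have hρi : IsIntegral k ρ := Algebra.IsIntegral.isIntegral ρ
    rw [← IntermediateField.mem_toSubalgebra,
      IntermediateField.adjoin_simple_toSubalgebra_of_isAlgebraic hρi.isAlgebraic,
      Algebra.adjoin_singleton_eq_range_aeval] at hdm
    obtain ⟨p, hp⟩ := hdm
    refine ⟨p, ?_⟩
    have h1 : aeval ρ (C (c * f.leadingCoeff) * (C x₀ - X) - p ^ 2) = 0 := by
      have hp' : aeval ρ p = d := hp
      rw [map_sub, map_pow, hp', hd, map_mul, map_sub, aeval_C, aeval_C, aeval_X, sub_self]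
    have h2 := minpoly.dvd k ρ h1
    rw [← minpoly.eq_of_irreducible hg hρ] at h2
    exact dvd_of_mul_right_dvd h2)


end final

section lev

variable {k K : Type} [Field k] [Field K] [Algebra k K]

/-- `IsRt`, for a subfield -/
def IsRtS (k : Type) {K : Type} [Field k] [Field K] [Algebra k K]
    (S : Subfield (AlgebraicClosure K)) (m : ℕ) (w : AlgebraicClosure K) : Prop :=
  ∃ u : S, (u : AlgebraicClosure K) = w ^ m ∧ ∀ P : ValuationSubring S,
    (∀ z : S, IsAlgebraic k (z : AlgebraicClosure K) → z ∈ P) →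
    ∃ z : S, P.valuation u = P.valuation z ^ m

theorem isRt_congr {x y x' y' : K} (h : Xbar k x y = Xbar k x' y') {m : ℕ}
    {w : AlgebraicClosure K} (hw : IsRt k x y m w) : IsRt k x' y' m w := by
  have h1 : IsRtS k (Xbar k x y) m w := hw
  rw [h] at h1
  exact h1

theorem xbar_le_lev {x y : K} (m : ℕ) : Xbar k x y ≤ Lev k x y m :=
  Subfield.closure_mono Set.subset_union_left

theorem lev_le {x y x' y' : K} (h : Xbar k x y = Xbar k x' y') (m : ℕ) :
    Lev k x y m ≤ Lev k x' y' m := by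
  unfold Lev
  rw [Subfield.closure_le]
  rintro z (hz | hz)
  · have h1 : z ∈ Xbar k x y := Subfield.subset_closure hz
    rw [h] at h1
    exact xbar_le_lev m h1
  · exact Subfield.subset_closure (Or.inr (isRt_congr h hz))

theorem lev_congr {x y x' y' : K} (h : Xbar k x y = Xbar k x' y') (m : ℕ) :
    Lev k x y m = Lev k x' y' m := le_antisymm (lev_le h m) (lev_le h.symm m)

theorem xbar_le {x y : K} {S : Subfield (AlgebraicClosure K)}
    (hc : ∀ z : AlgebraicClosure K, IsAlgebraic k z → z ∈ S)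
    (hx : algebraMap K (AlgebraicClosure K) x ∈ S) (hy : algebraMap K (AlgebraicClosure K) y ∈ S) :
    Xbar k x y ≤ S := by
  unfold Xbar
  rw [Subfield.closure_le]
  rintro z (hz | hz | hz)
  · exact hc z hz
  · rw [hz]; exact hx
  · rw [Set.mem_singleton_iff.1 hz]; exact hy

theorem xbar_mul {x y : K} (hx : x ≠ 0) (n : ℕ) : Xbar k x y = Xbar k x (y * x ^ n) := by
  have hx' : algebraMap K (AlgebraicClosure K) x ≠ 0 := (_root_.map_ne_zero _).2 hx
  refine le_antisymm ?_ ?_
  · refine xbar_le (fun z hz => Subfield.subset_closure (Or.inl hz))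
      (Subfield.subset_closure (Or.inr (Or.inl rfl))) ?_
    have h1 : algebraMap K (AlgebraicClosure K) (y * x ^ n) ∈ Xbar k x (y * x ^ n) :=
      Subfield.subset_closure (Or.inr (Or.inr rfl))
    have h2 : algebraMap K (AlgebraicClosure K) x ∈ Xbar k x (y * x ^ n) :=
      Subfield.subset_closure (Or.inr (Or.inl rfl))
    have h3 := div_mem h1 (pow_mem h2 n)
    rwa [map_mul, map_pow, mul_div_cancel_right₀ _ (pow_ne_zero n hx')] at h3
  · refine xbar_le (fun z hz => Subfield.subset_closure (Or.inl hz))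
      (Subfield.subset_closure (Or.inr (Or.inl rfl))) ?_
    have h1 : algebraMap K (AlgebraicClosure K) y ∈ Xbar k x y :=
      Subfield.subset_closure (Or.inr (Or.inr rfl))
    have h2 : algebraMap K (AlgebraicClosure K) x ∈ Xbar k x y :=
      Subfield.subset_closure (Or.inr (Or.inl rfl))
    rw [map_mul, map_pow]
    exact mul_mem h1 (pow_mem h2 n)

theorem agr_mul {s : GaloisSection k K} {x y : K} (hx : x ≠ 0) (n : ℕ) {m : ℕ}
    (h : AgrInf s x y m) : AgrInf s x (y * x ^ n) m := by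
  obtain ⟨Q, h1, h2, h3⟩ := h
  refine ⟨Q, h1, h2, fun w hw => ?_⟩
  rw [← lev_congr (xbar_mul hx n)] at hw
  exact h3 w hw

end lev

/-- `x₀` is in the set `A_f` -/
def OnCf3 {k : Type} [Field k] (f : k[X]) (x₀ : k) : Prop :=
  (∃ (t : k) (p : k[X]), f ∣ C x₀ - X - C t * p ^ 2) ∨
    ∃ α : k, eval α f = 0 ∧ ∃ p : k[X], f ∣ (X - C x₀) * (X - C α) - p ^ 2

section alg

variable {k : Type} [Field k]

/-- from the coordinate `1 / (x - α)` to `x` -/
theorem sq_of_cc [CharZero k] {f : k[X]} (hsep : f.Separable) {α : k} (hα : eval α f = 0) {e x₀ : k}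
    (he : e ≠ 0) (hx₀ : x₀ - α ≠ 0) {P : k[X]}
    (hP : Pool.Agent.TOWS.cc α f ∣ C e * (C (x₀ - α)⁻¹ - X) - P ^ 2) :
    ∃ p : k[X], f ∣ (X - C x₀) * (X - C α) - p ^ 2 := by
  -- the value at `0`
  have h0 : e * (x₀ - α)⁻¹ = (eval 0 P) ^ 2 := by
    obtain ⟨q, hq⟩ := hP
    have h1 := congrArg (eval 0) hq
    rw [Pool.Agent.TOWS.cc, eval_mul, eval_mul, eval_X, zero_mul, zero_mul, eval_sub, eval_mul,
      eval_sub, eval_C, eval_C, eval_X, sub_zero, eval_pow, sub_eq_zero] at h1
    exact h1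
  obtain ⟨u, hu⟩ : ∃ u : k, u = eval 0 P := ⟨_, rfl⟩
  rw [← hu] at h0
  have hu0 : u ≠ 0 := by
    rintro rfl
    rw [zero_pow two_ne_zero] at h0
    exact mul_ne_zero he (inv_ne_zero hx₀) h0
  refine crt_sq hsep ?_
  intro g hg hgf
  obtain ⟨ρ, hρ⟩ : ∃ ρ : AlgebraicClosure k, aeval ρ g = 0 :=
    IsAlgClosed.exists_aeval_eq_zero _ g (degree_pos_of_irreducible hg).ne'
  have hρf : aeval ρ f = 0 := by
    obtain ⟨h, rfl⟩ := hgf
    rw [map_mul, hρ, zero_mul]
  by_cases hρα : ρ - algebraMap k (AlgebraicClosure k) α = 0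
  · refine ⟨0, ?_⟩
    have h1 : aeval ρ ((X - C x₀) * (X - C α) - 0 ^ 2) = 0 := by
      rw [zero_pow two_ne_zero, sub_zero, map_mul, map_sub, map_sub, aeval_X, aeval_C, aeval_C,
        hρα, mul_zero]
    have h2 := minpoly.dvd k ρ h1
    rw [← minpoly.eq_of_irreducible hg hρ] at h2
    exact dvd_of_mul_right_dvd h2
  · -- the root `1 / (ρ - α)` of `cc α f`
    have h1 := Pool.Agent.TOWS.root_cc (a := α) hρf
    have h2 : aeval (ρ - algebraMap k (AlgebraicClosure k) α)⁻¹
        (C e * (C (x₀ - α)⁻¹ - X) - P ^ 2) = 0 := by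
      obtain ⟨q, hq⟩ := hP
      rw [hq, map_mul, h1, zero_mul]
    obtain ⟨d, hd⟩ : ∃ d, d = (ρ - algebraMap k (AlgebraicClosure k) α) *
        aeval (ρ - algebraMap k (AlgebraicClosure k) α)⁻¹ P *
          (algebraMap k (AlgebraicClosure k) u)⁻¹ := ⟨_, rfl⟩
    have hρi : IsIntegral k ρ := Algebra.IsIntegral.isIntegral ρ
    have hdm : d ∈ IntermediateField.adjoin k {ρ} := by
      have g1 : ρ ∈ IntermediateField.adjoin k {ρ} :=
        IntermediateField.mem_adjoin_simple_self k ρ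
      have g2 : ρ - algebraMap k (AlgebraicClosure k) α ∈ IntermediateField.adjoin k {ρ} :=
        sub_mem g1 ((IntermediateField.adjoin k {ρ}).algebraMap_mem α)
      rw [hd]
      refine mul_mem (mul_mem g2 ?_) (inv_mem ((IntermediateField.adjoin k {ρ}).algebraMap_mem u))
      exact IntermediateField.algebra_adjoin_le_adjoin k _
        ((Algebra.adjoin_mono (by
          intro z hz
          rw [Set.mem_singleton_iff.1 hz]
          exact inv_mem g2)) (aeval_mem_adjoin_singleton (R := k) _)) |> fun h => by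
            have h3 : IntermediateField.adjoin k
              ((IntermediateField.adjoin k {ρ} : IntermediateField k (AlgebraicClosure k)) :
                Set (AlgebraicClosure k)) ≤ IntermediateField.adjoin k {ρ} :=
              IntermediateField.adjoin_le_iff.2 (le_refl _)
            exact h3 h
    rw [← IntermediateField.mem_toSubalgebra,
      IntermediateField.adjoin_simple_toSubalgebra_of_isAlgebraic hρi.isAlgebraic,
      Algebra.adjoin_singleton_eq_range_aeval] at hdm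
    obtain ⟨p, hp⟩ := hdm
    refine ⟨p, ?_⟩
    have h3 : aeval ρ ((X - C x₀) * (X - C α) - p ^ 2) = 0 := by
      have hp' : aeval ρ p = d := hp
      rw [map_sub, map_pow, hp', map_mul, map_sub, map_sub, aeval_X, aeval_C, aeval_C, sub_eq_zero]
      rw [map_sub, map_pow, map_mul, map_sub, aeval_C, aeval_C, aeval_X, sub_eq_zero] at h2
      have h4 := congrArg (algebraMap k (AlgebraicClosure k)) h0
      rw [map_mul, map_pow] at h4
      have hu' : algebraMap k (AlgebraicClosure k) u ≠ 0 := (_root_.map_ne_zero _).2 hu0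
      have hx' : algebraMap k (AlgebraicClosure k) x₀ - algebraMap k (AlgebraicClosure k) α ≠ 0 := by
        rw [← map_sub]
        exact (_root_.map_ne_zero _).2 hx₀
      rw [map_inv₀, map_sub] at h4 h2
      rw [hd, mul_pow, mul_pow, ← h2, inv_pow, ← h4]
      have he' : algebraMap k (AlgebraicClosure k) e ≠ 0 := (_root_.map_ne_zero _).2 he
      field_simp
      ring
    have h4 := minpoly.dvd k ρ h3
    rw [← minpoly.eq_of_irreducible hg hρ] at h4
    exact dvd_of_mul_right_dvd h4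

end alg

section final

variable {k : Type} [Field k] [NumberField k]

/-- **The rational points.** -/
theorem pt_On3 {f : k[X]} (hsep : f.Separable) (hodd : Odd f.natDegree)
    {c : k} (hc : c ≠ 0) (hO : ¬ Oth3 f c) {x₀ y₀ : k} (hP : y₀ ^ 2 = c * eval x₀ f)
    (hy : y₀ ≠ 0) : OnCf3 f x₀ := by
  obtain ⟨x, y, hx, hxy, hxV⟩ := laurent_pt hP hy
  let E := IntermediateField.adjoin k {x, y}
  have hxE : x ∈ E := IntermediateField.subset_adjoin _ _ (by simp)
  have hyE : y ∈ E := IntermediateField.subset_adjoin _ _ (by simp)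
  have hcoe : ∀ p : k[X], ((aeval (⟨x, hxE⟩ : E) p : E) : LaurentSeries k) = aeval x p := fun p =>
    (aeval_algebraMap_apply (LaurentSeries k) (⟨x, hxE⟩ : E) p).symm
  have hx' : Transcendental k (⟨x, hxE⟩ : E) := fun halg =>
    hx (halg.algebraMap (A := LaurentSeries k))
  have hxy' : (⟨y, hyE⟩ : E) ^ 2 = algebraMap k E c * aeval (⟨x, hxE⟩ : E) f := by
    apply Subtype.ext
    show y ^ 2 = algebraMap k (LaurentSeries k) c * ((aeval (⟨x, hxE⟩ : E) f : E) :
      LaurentSeries k)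
    rw [hcoe, hxy]
  obtain ⟨V, hV⟩ : ∃ V : ValuationSubring E, V = (pvr k).comap (algebraMap E (LaurentSeries k)) :=
    ⟨_, rfl⟩
  have hVlt : ∀ z : E, ((z : LaurentSeries k)⁻¹ ∉ pvr k) → V.valuation z < 1 := by
    intro z hz
    rw [← ValuationSubring.mem_nonunits_iff, ValuationSubring.mem_nonunits_iff_or]
    right
    rw [hV, ValuationSubring.mem_comap, map_inv₀]
    exact hz
  obtain ⟨s, W, hW, hVW, hs⟩ := Pool.Agent.HG.section_of_place' V (by
        intro c
        rw [hV, ValuationSubring.mem_comap, ← IsScalarTower.algebraMap_apply k E (LaurentSeries k)]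
        exact Pool.Agent.Helper88.HG.pvr_const k c) (by
        intro z hz
        rw [hV, ValuationSubring.mem_comap] at hz
        obtain ⟨c, hc⟩ := Pool.Agent.Helper88.HG.pvr_res k _ hz
        refine ⟨c, ?_⟩
        rw [← ValuationSubring.mem_nonunits_iff, ValuationSubring.mem_nonunits_iff_or] at hc ⊢
        rcases hc with hc | hc
        · left
          apply Subtype.ext
          exact hc
        · right
          rw [hV, ValuationSubring.mem_comap, map_inv₀]
          exact hc)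
  have hxx₀ : V.valuation ((⟨x, hxE⟩ : E) - algebraMap k E x₀) < 1 := hVlt _ hxV
  have hAg : AgrInf s (⟨x, hxE⟩ : E) ⟨y, hyE⟩ 2 ∨ ∃ α : k, eval α f = 0 ∧
      AgrInf s ((⟨x, hxE⟩ : E) - algebraMap k E α)⁻¹ ⟨y, hyE⟩ 2 := by
    by_contra hcon
    push Not at hcon
    exact hO ⟨E, inferInstance, inferInstance, ⟨x, hxE⟩, ⟨y, hyE⟩, hx', hxy', s, hcon.1, hcon.2⟩
  have h0 : c * f.leadingCoeff ≠ 0 := mul_ne_zero hc (leadingCoeff_ne_zero.2 hsep.ne_zero)
  rcases hAg with hA | ⟨α, hα, hA⟩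
  · obtain ⟨p, hp⟩ := pt_gen3 hW hs hc hx' hsep hodd hxy' hA (hVW _ hxx₀)
    refine Or.inl ⟨(c * f.leadingCoeff)⁻¹, p, ?_⟩
    have h1 : C x₀ - X - C (c * f.leadingCoeff)⁻¹ * p ^ 2 = C (c * f.leadingCoeff)⁻¹ *
        (C (c * f.leadingCoeff) * (C x₀ - X) - p ^ 2) := by
      rw [mul_sub, ← mul_assoc, ← C_mul, inv_mul_cancel₀ h0, C_1, one_mul]
    rw [h1]
    exact Dvd.dvd.mul_left hp _
  · right
    have hx₀α : x₀ - α ≠ 0 := by
      intro h
      rw [sub_eq_zero.1 h, hα, mul_zero] at hP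
      exact hy (pow_eq_zero_iff two_ne_zero |>.1 hP)
    have hsub : (⟨x, hxE⟩ : E) - algebraMap k E α ≠ 0 := by
      intro h
      apply hx'
      rw [sub_eq_zero.1 h]
      exact isAlgebraic_algebraMap α
    obtain ⟨hs1, hd1⟩ := Pool.Agent.TOWS.cc_sep (E := AlgebraicClosure k) hsep hα
    obtain ⟨m, hm⟩ := hodd
    have hev : 2 * ((f.natDegree + 1) / 2) = f.natDegree + 1 := by omega
    obtain ⟨x₁, hx₁⟩ : ∃ x₁ : E, x₁ = ((⟨x, hxE⟩ : E) - algebraMap k E α)⁻¹ := ⟨_, rfl⟩
    have hx₁0 : x₁ ≠ 0 := by rw [hx₁]; exact inv_ne_zero hsub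
    have hxy1 : ((⟨y, hyE⟩ : E) * x₁ ^ ((f.natDegree + 1) / 2)) ^ 2 =
        algebraMap k E c * aeval x₁ (Pool.Agent.TOWS.cc α f) := by
      rw [hx₁, Pool.Agent.TOWS.aeval_cc hsub, mul_pow, hxy', ← pow_mul,
        mul_comm ((f.natDegree + 1) / 2) 2, hev]
      ring
    have hx1t : Transcendental k x₁ := by
      intro h1
      apply hx'
      have h2 := h1.inv
      rw [hx₁, inv_inv] at h2
      have h3 := h2.add (isAlgebraic_algebraMap α)
      rwa [sub_add_cancel] at h3
    rw [← hx₁] at hA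
    have hA1 := agr_mul hx₁0 ((f.natDegree + 1) / 2) hA
    have hval : V.valuation (x₁ - algebraMap k E (x₀ - α)⁻¹) < 1 := by
      have h1 : x₁ - algebraMap k E (x₀ - α)⁻¹ =
          -(((⟨x, hxE⟩ : E) - algebraMap k E x₀) * (x₁ * algebraMap k E (x₀ - α)⁻¹)) := by
        have h2 : algebraMap k E (x₀ - α) ≠ 0 := (_root_.map_ne_zero _).2 hx₀α
        rw [hx₁, map_inv₀]
        have h3 : algebraMap k E (x₀ - α) = algebraMap k E x₀ - algebraMap k E α := map_sub _ _ _
        rw [h3] at h2 ⊢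
        field_simp
        ring
      have h4 : V.valuation x₁ = 1 := by
        have h5 : V.valuation ((⟨x, hxE⟩ : E) - algebraMap k E α) = 1 := by
          have h6 : (⟨x, hxE⟩ : E) - algebraMap k E α = ((⟨x, hxE⟩ : E) - algebraMap k E x₀) +
              algebraMap k E (x₀ - α) := by
            rw [map_sub]; ring
          have h7 : V.valuation (algebraMap k E (x₀ - α)) = 1 :=
            const_one V (algebraMap k E) (by
              intro c
              rw [hV, ValuationSubring.mem_comap,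
                ← IsScalarTower.algebraMap_apply k E (LaurentSeries k)]
              exact Pool.Agent.Helper88.HG.pvr_const k c) hx₀α
          rw [h6, Valuation.map_add_eq_of_lt_right _ (by rw [h7]; exact hxx₀), h7]
        rw [hx₁, map_inv₀, h5, inv_one]
      have h5 : V.valuation (algebraMap k E (x₀ - α)⁻¹) = 1 :=
        const_one V (algebraMap k E) (by
          intro c
          rw [hV, ValuationSubring.mem_comap,
            ← IsScalarTower.algebraMap_apply k E (LaurentSeries k)]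
          exact Pool.Agent.Helper88.HG.pvr_const k c) (inv_ne_zero hx₀α)
      rw [h1, Valuation.map_neg, map_mul, map_mul, h4, h5, mul_one, mul_one]
      exact hxx₀
    obtain ⟨P, hP'⟩ := pt_gen3 hW hs hc hx1t hs1 (by rw [hd1]; exact ⟨m, hm⟩) hxy1 hA1
      (hVW _ hval)
    refine ⟨α, hα, sq_of_cc hsep hα ?_ hx₀α hP'⟩
    exact mul_ne_zero hc (leadingCoeff_ne_zero.2 hs1.ne_zero)

/-- for almost all `c` all `k`-points with `y ≠ 0` have `x` in the set `A_f` -/
theorem rare_pts3 {f : k[X]} (hsep : f.Separable) (hodd : Odd f.natDegree)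
    (hR : Pool.Agent.TW.Rare (fun c : k => Oth3 f c)) :
    Pool.Agent.TW.Rare (fun c : k => ∃ x₀ y₀ : k, y₀ ^ 2 = c * eval x₀ f ∧ y₀ ≠ 0 ∧
      ¬ OnCf3 f x₀) := by
  intro ε hε
  filter_upwards [hR ε hε] with X hX
  intro T hT hTc
  refine hX T hT fun c hc => ?_
  obtain ⟨h1, h2, x₀, y₀, h3, h4, h5⟩ := hTc c hc
  refine ⟨h1, h2, ?_⟩
  by_contra hO
  exact h5 (pt_On3 hsep hodd h1 hO h3 h4)

/-- if `A_f` is finite then almost no `c` has a `k`-point with `y ≠ 0` -/
theorem rare_any3 {f : k[X]} (hsep : f.Separable) (hodd : Odd f.natDegree)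
    (hR : Pool.Agent.TW.Rare (fun c : k => Oth3 f c)) (hF : {x₀ : k | OnCf3 f x₀}.Finite) :
    Pool.Agent.TW.Rare (fun c : k => ∃ x₀ y₀ : k, y₀ ^ 2 = c * eval x₀ f ∧ y₀ ≠ 0) := by
  classical
  intro ε hε
  obtain ⟨M, hM⟩ := exists_nat_gt ((hF.toFinset.card : ℝ) / (ε / 2))
  filter_upwards [rare_pts3 hsep hodd hR (ε / 2) (by positivity), eventually_ge_atTop M]
    with X hX hXM
  intro T hT hTc
  obtain ⟨T1, hT1⟩ : ∃ T1, T1 = T.filter (fun c => ∃ x₀ y₀ : k, y₀ ^ 2 = c * eval x₀ f ∧ y₀ ≠ 0 ∧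
    ¬ OnCf3 f x₀) := ⟨_, rfl⟩
  obtain ⟨T2, hT2⟩ : ∃ T2, T2 = T.filter (fun c => ¬ ∃ x₀ y₀ : k, y₀ ^ 2 = c * eval x₀ f ∧
    y₀ ≠ 0 ∧ ¬ OnCf3 f x₀) := ⟨_, rfl⟩
  have hcard : T.card = T1.card + T2.card := by
    rw [hT1, hT2, Finset.card_filter_add_card_filter_not]
  have h1 : (T1.card : ℝ) ≤ ε / 2 * X := by
    refine hX T1 (fun c hc c' hc' => hT c ?_ c' ?_) fun c hc => ?_
    · rw [hT1] at hc
      exact (Finset.mem_filter.1 hc).1
    · rw [hT1] at hc'
      exact (Finset.mem_filter.1 hc').1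
    · rw [hT1] at hc
      obtain ⟨g1, g2⟩ := Finset.mem_filter.1 hc
      exact ⟨(hTc c g1).1, (hTc c g1).2.1, g2⟩
  have h2 : T2.card ≤ hF.toFinset.card := by
    have hch : ∀ c : k, ∃ x₀ : k, c ∈ T2 → OnCf3 f x₀ ∧ ∃ y₀ : k, y₀ ≠ 0 ∧
        y₀ ^ 2 = c * eval x₀ f := by
      intro c
      by_cases hc : c ∈ T2
      · rw [hT2] at hc
        obtain ⟨g1, g2⟩ := Finset.mem_filter.1 hc
        obtain ⟨g3, _, x₀, y₀, g4, g5⟩ := hTc c g1
        refine ⟨x₀, fun _ => ⟨?_, y₀, g5, g4⟩⟩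
        by_contra h
        exact g2 ⟨x₀, y₀, g4, g5, h⟩
      · exact ⟨0, fun h => absurd h hc⟩
    choose ξ hξ using hch
    refine Finset.card_le_card_of_injOn ξ ?_ ?_
    · intro c hc
      rw [Finset.mem_coe, Set.Finite.mem_toFinset]
      exact (hξ c (Finset.mem_coe.1 hc)).1
    · intro c hc c' hc' h
      obtain ⟨_, y₁, g1, g2⟩ := hξ c (Finset.mem_coe.1 hc)
      obtain ⟨_, y₂, g3, g4⟩ := hξ c' (Finset.mem_coe.1 hc')
      have hcT : c ∈ T := by
        have := Finset.mem_coe.1 hc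
        rw [hT2] at this
        exact (Finset.mem_filter.1 this).1
      have hcT' : c' ∈ T := by
        have := Finset.mem_coe.1 hc'
        rw [hT2] at this
        exact (Finset.mem_filter.1 this).1
      refine hT c hcT c' hcT' ⟨y₁ / y₂, ?_⟩
      rw [h] at g2
      have g5 : eval (ξ c') f ≠ 0 := by
        intro h0
        rw [h0, mul_zero] at g4
        exact g3 (pow_eq_zero_iff two_ne_zero |>.1 g4)
      rw [div_pow, g2, g4]
      have hc'0 : c' ≠ 0 := (hTc c' hcT').1
      field_simp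
  have hX' : (hF.toFinset.card : ℝ) ≤ ε / 2 * X := by
    rw [div_lt_iff₀ (by positivity)] at hM
    have h3 : (M : ℝ) ≤ X := by exact_mod_cast hXM
    nlinarith
  have h3 : (T2.card : ℝ) ≤ hF.toFinset.card := by exact_mod_cast h2
  rw [hcard]
  push_cast
  linarith

end final

end

end Pool.Agent.TW3
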